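import Pool.Agent.W960.HR.Smooth2

/-! Zeros of a Gaussian polynomial field with an arbitrary centre. -/

open Real Set MeasureTheory Topology Filter ProbabilityTheory
open scoped ENNReal NNReal

namespace Pool.Agent.W960.KS

noncomputable section

open Pool.Agent.W960.HR

section

variable {ι : Type*} [Fintype ι]

/-- small intervals -/
lemma gaussian_small_sh {v : ℝ≥0} {s y : ℝ} (p : ℝ) (hs : 0 < s) (hv : (v : ℝ) = s ^ 2) : gaussianReal 0 v {u | |u + p| ≤ y} ≤ ENNReal.ofReal (y / s) := by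
  have hv0 : v ≠ 0 := by
    intro h
    rw [h] at hv
    have : 0 < s ^ 2 := by positivity
    simp at hv
    linarith [hv.symm ▸ this]
  rw [gaussianReal_apply 0 hv0]
  have e : {u : ℝ | |u + p| ≤ y} = Icc (-y - p) (y - p) := by
    ext u
    rw [mem_ofPred_eq, mem_Icc, abs_le]
    constructor
    · rintro ⟨h1, h2⟩; constructor <;> linarith
    · rintro ⟨h1, h2⟩; constructor <;> linarith
  have h1 : ∀ u, gaussianPDF 0 v u ≤ ENNReal.ofReal (1 / (2 * s)) := by
    intro u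
    unfold gaussianPDF
    apply ENNReal.ofReal_le_ofReal
    rw [gaussianPDFReal_def]
    simp only
    rw [hv]
    have h2 : √(2 * π * s ^ 2) = √(2 * π) * s := by
      rw [Real.sqrt_mul (by positivity), Real.sqrt_sq hs.le]
    rw [h2]
    have h3 : (2:ℝ) ≤ √(2 * π) := by
      apply Real.le_sqrt_of_sq_le
      linarith [Real.pi_gt_three]
    have h4 : rexp (-(u - 0) ^ 2 / (2 * s ^ 2)) ≤ 1 := by
      apply Real.exp_le_one_iff.2
      apply div_nonpos_of_nonpos_of_nonneg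
      · simp; positivity
      · positivity
    calc (√(2 * π) * s)⁻¹ * rexp (-(u - 0) ^ 2 / (2 * s ^ 2)) ≤ (√(2 * π) * s)⁻¹ * 1 := by gcongr
      _ = 1 / (√(2 * π) * s) := by rw [mul_one, one_div]
      _ ≤ 1 / (2 * s) := by
          apply one_div_le_one_div_of_le (by positivity)
          exact mul_le_mul_of_nonneg_right h3 hs.le
  rw [e]
  refine (setLIntegral_mono measurable_const fun u _ => h1 u).trans ?_
  rw [setLIntegral_const, Real.volume_Icc, ← ENNReal.ofReal_mul (by positivity)]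
  apply ENNReal.ofReal_le_ofReal
  refine le_of_eq ?_
  field_simp
  ring

lemma sl_add (w b a : ι → ℝ) : sl w (fun m => b m + a m) = sl w b + sl w a := by
  unfold sl
  rw [← Finset.sum_add_distrib]
  exact Finset.sum_congr rfl fun m _ => by ring

lemma sl_le {w b : ι → ℝ} {s β : ℝ} (hs : 0 ≤ s) (hβ : 0 ≤ β) (hw : ∑ m, w m ^ 2 ≤ s ^ 2)
    (hb : ∑ m, b m ^ 2 ≤ β ^ 2) : |sl w b| ≤ s * β := by
  have h1 : (∑ m, w m * b m) ^ 2 ≤ (∑ m, w m ^ 2) * ∑ m, b m ^ 2 :=
    Finset.sum_mul_sq_le_sq_mul_sq _ _ _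
  have h2 : (sl w b) ^ 2 ≤ (s * β) ^ 2 := by
    unfold sl
    refine h1.trans ?_
    rw [mul_pow]
    exact mul_le_mul hw hb (Finset.sum_nonneg fun _ _ => sq_nonneg _) (sq_nonneg _)
  exact abs_le_of_sq_le_sq h2 (by positivity)

/-- The value of a linear form is small compared with another one. -/
theorem small_form_b {w w' : ι → ℝ} {s κ h C : ℝ} (hs : 0 < s) (hw : ∑ m, w m ^ 2 = s ^ 2)
    (hκ : 0 < κ) (hw' : ∑ m, w' m ^ 2 ≤ κ ^ 2 * s ^ 2) (hh : 0 ≤ h) (hhκ : h * κ ≤ 1 / 2)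
    (hC : 0 ≤ C) {b : ι → ℝ} {β : ℝ} (hβ : 0 ≤ β) (hb : ∑ m, b m ^ 2 ≤ β ^ 2) :
    GQ ι {a | |sl w fun m => b m + a m| ≤ h * |sl w' fun m => b m + a m| + C} ≤
      ENNReal.ofReal (2 * h * (κ * (1 + β)) + 2 * C / s) := by
  set ρ : ℝ := (∑ m, w m * w' m) / s ^ 2 with hρ
  have hs2 : 0 < s ^ 2 := by positivity
  have hρκ : |ρ| ≤ κ := by
    have h1 : (∑ m, w m * w' m) ^ 2 ≤ (∑ m, w m ^ 2) * ∑ m, w' m ^ 2 :=
      Finset.sum_mul_sq_le_sq_mul_sq _ _ _
    rw [hw] at h1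
    have h2 : (∑ m, w m * w' m) ^ 2 ≤ (κ * s ^ 2) ^ 2 := by nlinarith
    have h3 := abs_le_of_sq_le_sq h2 (by positivity)
    rw [hρ, abs_div, abs_of_pos hs2, div_le_iff₀ hs2]
    exact h3
  set v : ι → ℝ := fun m => w' m - ρ * w m with hv
  have hort : ∑ m, w m * v m = 0 := by
    have h1 : ∑ m, w m * v m = ∑ m, w m * w' m - ρ * ∑ m, w m ^ 2 := by
      rw [Finset.mul_sum, ← Finset.sum_sub_distrib]
      exact Finset.sum_congr rfl fun m _ => by simp only [hv]; ring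
    rw [h1, hw, hρ]
    field_simp
    ring
  have hvn : ∑ m, v m ^ 2 ≤ (κ * s) ^ 2 := by
    have h1 : ∑ m, v m ^ 2 = ∑ m, w' m ^ 2 - ρ ^ 2 * s ^ 2 := by
      have h2 : ∑ m, v m ^ 2 = ∑ m, w' m ^ 2 - 2 * ρ * (∑ m, w m * w' m) + ρ ^ 2 * ∑ m, w m ^ 2 := by
        rw [Finset.mul_sum, Finset.mul_sum, ← Finset.sum_sub_distrib, ← Finset.sum_add_distrib]
        exact Finset.sum_congr rfl fun m _ => by simp only [hv]; ring
      have h3 : ∑ m, w m * w' m = ρ * s ^ 2 := by rw [hρ]; field_simp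
      rw [h2, hw, h3]; ring
    rw [h1]
    have : 0 ≤ ρ ^ 2 * s ^ 2 := by positivity
    nlinarith
  have hsl : ∀ a, sl w' a = sl v a + ρ * sl w a := by
    intro a
    unfold sl
    rw [Finset.mul_sum, ← Finset.sum_add_distrib]
    exact Finset.sum_congr rfl fun m _ => by simp only [hv]; ring
  have hvb : |sl v b| ≤ κ * s * β := sl_le (by positivity) hβ hvn hb
  set g : ℝ → ℝ := fun x => 2 * h * |x + sl v b| + 2 * C with hg
  have hsub : {a | |sl w fun m => b m + a m| ≤ h * |sl w' fun m => b m + a m| + C} ⊆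
      {a : ι → ℝ | |sl w a + sl w b| ≤ g (sl v a)} := by
    intro a ha
    simp only [mem_ofPred_eq] at ha ⊢
    rw [hsl] at ha
    have e1 : sl w (fun m => b m + a m) = sl w a + sl w b := by rw [sl_add, add_comm]
    have e2 : sl v (fun m => b m + a m) = sl v a + sl v b := by rw [sl_add, add_comm]
    rw [e1, e2] at ha
    set P := sl w a + sl w b
    set Q := sl v a + sl v b
    have h1 := abs_add_le Q (ρ * P)
    rw [abs_mul] at h1
    have h2 : h * |Q + ρ * P| ≤ h * |Q| + 1 / 2 * |P| := by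
      have h3 : |ρ| * |P| ≤ κ * |P| := mul_le_mul_of_nonneg_right hρκ (abs_nonneg _)
      have h4 := mul_le_mul_of_nonneg_left (h1.trans (add_le_add le_rfl h3)) hh
      have h5 : h * κ * |P| ≤ 1 / 2 * |P| :=
        mul_le_mul_of_nonneg_right hhκ (abs_nonneg _)
      nlinarith
    simp only [hg]
    linarith
  refine (measure_mono hsub).trans ?_
  have hmw : Measurable (sl w) := (continuous_sl w).measurable
  have hmv : Measurable (sl v) := (continuous_sl v).measurable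
  have hE : MeasurableSet {q : ℝ × ℝ | |q.1 + sl w b| ≤ g q.2} := by
    refine (isClosed_le (by fun_prop) ?_).measurableSet
    simp only [hg]
    fun_prop
  have h1 : GQ ι {a : ι → ℝ | |sl w a + sl w b| ≤ g (sl v a)} =
      ((GQ ι).map (sl w)).prod ((GQ ι).map (sl v)) {q : ℝ × ℝ | |q.1 + sl w b| ≤ g q.2} := by
    rw [← (indep_sl hort).map_prod_eq_prod_map_map hmw.aemeasurable hmv.aemeasurable,
      Measure.map_apply (hmw.prodMk hmv) hE]
    rfl
  have hprob : IsProbabilityMeasure ((GQ ι).map (sl w)) := Measure.isProbabilityMeasure_map hmw.aemeasurable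
  have hprob' : IsProbabilityMeasure ((GQ ι).map (sl v)) := Measure.isProbabilityMeasure_map hmv.aemeasurable
  rw [h1, Measure.prod_apply_symm hE]
  have h2 : ∀ x, ((GQ ι).map (sl w)) ((fun u => (u, x)) ⁻¹' {q : ℝ × ℝ | |q.1 + sl w b| ≤ g q.2}) ≤
      ENNReal.ofReal (g x / s) := by
    intro x
    rw [map_sl]
    refine gaussian_small_sh _ hs ?_
    rw [Real.coe_toNNReal _ (Finset.sum_nonneg fun _ _ => sq_nonneg _), hw]
  refine (lintegral_mono h2).trans ?_
  rw [lintegral_map (by simp only [hg]; fun_prop) hmv]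
  have h3 : ∀ a, ENNReal.ofReal (g (sl v a) / s) ≤
      ENNReal.ofReal (2 * h / s) * ENNReal.ofReal |sl v a| +
        ENNReal.ofReal (2 * h * (κ * β) + 2 * C / s) := by
    intro a
    rw [← ENNReal.ofReal_mul (by positivity), ← ENNReal.ofReal_add (by positivity) (by positivity)]
    apply ENNReal.ofReal_le_ofReal
    simp only [hg]
    have h4 : |sl v a + sl v b| ≤ |sl v a| + κ * s * β := (abs_add_le _ _).trans (by linarith)
    rw [div_le_iff₀ hs]
    have h5 : (2 * h / s * |sl v a| + (2 * h * (κ * β) + 2 * C / s)) * s =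
        2 * h * (|sl v a| + κ * s * β) + 2 * C := by
      field_simp
      ring
    rw [h5]
    have h6 := mul_le_mul_of_nonneg_left h4 (by positivity : 0 ≤ 2 * h)
    linarith
  refine (lintegral_mono h3).trans ?_
  rw [lintegral_add_right _ measurable_const, lintegral_const_mul' _ _ ENNReal.ofReal_ne_top,
    lintegral_const, measure_univ, mul_one]
  have h4 := mean_abs_sl (w := v) (s := κ * s) (by positivity) hvn
  calc ENNReal.ofReal (2 * h / s) * ∫⁻ a, ENNReal.ofReal |sl v a| ∂GQ ι +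
        ENNReal.ofReal (2 * h * (κ * β) + 2 * C / s)
      ≤ ENNReal.ofReal (2 * h / s) * ENNReal.ofReal (κ * s) +
        ENNReal.ofReal (2 * h * (κ * β) + 2 * C / s) := by
        gcongr
    _ = ENNReal.ofReal (2 * h * (κ * (1 + β)) + 2 * C / s) := by
        rw [← ENNReal.ofReal_mul (by positivity), ← ENNReal.ofReal_add (by positivity) (by positivity)]
        congr 1
        field_simp
        ring

end

variable {S : Finset (ℕ × ℕ)} {n : ℕ} {M N : ℝ}

lemma split2 (A B : Set (S → ℝ)) :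
    GP S {c | (fun m => (c m).1) ∈ A ∧ (fun m => (c m).2) ∈ B} = GQ S A * GQ S B := by
  have h := measurePreserving_arrowProdEquivProdArrow ℝ ℝ S (fun _ => gaussianReal 0 1)
    (fun _ => gaussianReal 0 1)
  have h1 := h.measure_preimage_equiv (A ×ˢ B)
  rw [Measure.prod_prod] at h1
  exact h1

lemma sq_fst_le (b : S → ℝ × ℝ) : ∑ m, (b m).1 ^ 2 ≤ √(sn b) ^ 2 := by
  rw [Real.sq_sqrt (sn_nonneg b)]
  unfold sn H709R2.sq
  exact Finset.sum_le_sum fun m _ => by nlinarith [sq_nonneg (b m).2]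

lemma sq_snd_le (b : S → ℝ × ℝ) : ∑ m, (b m).2 ^ 2 ≤ √(sn b) ^ 2 := by
  rw [Real.sq_sqrt (sn_nonneg b)]
  unfold sn H709R2.sq
  exact Finset.sum_le_sum fun m _ => by nlinarith [sq_nonneg (b m).1]

/-- The probability that there is a zero in a small cell. -/
theorem cell_prob_b (b : S → ℝ × ℝ) {e : S → ℕ × ℕ} (he : ∀ m, (e m).1 + (e m).2 ≤ n)
    (hN : (S.card : ℝ) ≤ N) {z₀ : ℝ × ℝ} (hz₀ : ‖z₀‖ ≤ 1) {hx hy δ τ s : ℝ} (hx0 : 0 ≤ hx)
    (hy0 : 0 ≤ hy) (hτ : 0 < τ) (hτ1 : τ ≤ 1 / 4) (hM : 0 ≤ M) (hs : 1 ≤ s)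
    (h0 : ∑ m, wF e z₀ m ^ 2 = s ^ 2)
    (h1 : hx ^ 2 * ∑ m, wd e z₀ (1, 0) m ^ 2 ≤ τ ^ 2 * s ^ 2)
    (h2 : hy ^ 2 * ∑ m, wd e z₀ (0, 1) m ^ 2 ≤ τ ^ 2 * s ^ 2) :
    gb b {c | (∀ m, ‖c m‖ ≤ M) ∧ ∃ z : ℝ × ℝ, ‖z‖ ≤ 1 ∧ |z.1 - z₀.1| ≤ hx ∧ |z.2 - z₀.2| ≤ hy ∧
      ‖z - z₀‖ ≤ δ ∧ Gs one e c z = 0} ≤
      ENNReal.ofReal ((8 * (τ * (1 + √(sn b))) + 4 * (2 * (N * (n ^ 2 * M)) * δ ^ 2)) ^ 2) := by
  have hN0 : 0 ≤ N := (Nat.cast_nonneg _).trans hN
  have hβ : 0 ≤ √(sn b) := Real.sqrt_nonneg _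
  set β := √(sn b) with hβd
  set C : ℝ := 2 * (N * (n ^ 2 * M)) * δ ^ 2 with hC
  have hC0 : 0 ≤ C := by positivity
  have hs0 : 0 < s := by linarith
  set wx : S → ℝ := fun m => hx * wd e z₀ (1, 0) m with hwx
  set wy : S → ℝ := fun m => hy * wd e z₀ (0, 1) m with hwy
  have hwx2 : ∑ m, wx m ^ 2 ≤ τ ^ 2 * s ^ 2 := by
    have : ∑ m, wx m ^ 2 = hx ^ 2 * ∑ m, wd e z₀ (1, 0) m ^ 2 := by
      rw [Finset.mul_sum]
      exact Finset.sum_congr rfl fun m _ => by simp only [hwx]; ring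
    rw [this]; exact h1
  have hwy2 : ∑ m, wy m ^ 2 ≤ τ ^ 2 * s ^ 2 := by
    have : ∑ m, wy m ^ 2 = hy ^ 2 * ∑ m, wd e z₀ (0, 1) m ^ 2 := by
      rw [Finset.mul_sum]
      exact Finset.sum_congr rfl fun m _ => by simp only [hwy]; ring
    rw [this]; exact h2
  set A : Set (S → ℝ) := {a | |sl (wF e z₀) a| ≤ 2 * |sl wx a| + C} ∪
    {a | |sl (wF e z₀) a| ≤ 2 * |sl wy a| + C} with hA
  have hAm : MeasurableSet A := by
    have a1 := continuous_sl (wF e z₀)
    have a2 := continuous_sl wx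
    have a3 := continuous_sl wy
    exact (isClosed_le (by fun_prop) (by fun_prop)).measurableSet.union
      (isClosed_le (by fun_prop) (by fun_prop)).measurableSet
  have hAp : ∀ p : S → ℝ, ∑ m, p m ^ 2 ≤ β ^ 2 → GQ S {a | (fun m => p m + a m) ∈ A} ≤
      ENNReal.ofReal (8 * (τ * (1 + β)) + 4 * C) := by
    intro p hp
    have p1 := small_form_b (h := 2) hs0 h0 hτ hwx2 (by norm_num) (by linarith) hC0 hβ hp
    have p2 := small_form_b (h := 2) hs0 h0 hτ hwy2 (by norm_num) (by linarith) hC0 hβ hp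
    refine (measure_union_le _ _).trans ((add_le_add p1 p2).trans ?_)
    rw [← ENNReal.ofReal_add (by positivity) (by positivity)]
    apply ENNReal.ofReal_le_ofReal
    have : 2 * C / s ≤ 2 * C := div_le_self (by positivity) hs
    linarith
  have key : ∀ (a : S → ℝ) (p q : ℝ), |p| ≤ hx → |q| ≤ hy →
      |sl (wF e z₀) a + (p * sl (wd e z₀ (1, 0)) a + q * sl (wd e z₀ (0, 1)) a)| ≤ C → a ∈ A := by
    intro a p q hp hq hle
    have e1 : |sl wx a| = hx * |sl (wd e z₀ (1, 0)) a| := by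
      have : sl wx a = hx * sl (wd e z₀ (1, 0)) a := by
        unfold sl
        rw [Finset.mul_sum]
        exact Finset.sum_congr rfl fun m _ => by simp only [hwx]; ring
      rw [this, abs_mul, abs_of_nonneg hx0]
    have e2 : |sl wy a| = hy * |sl (wd e z₀ (0, 1)) a| := by
      have : sl wy a = hy * sl (wd e z₀ (0, 1)) a := by
        unfold sl
        rw [Finset.mul_sum]
        exact Finset.sum_congr rfl fun m _ => by simp only [hwy]; ring
      rw [this, abs_mul, abs_of_nonneg hy0]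
    have h3 : |sl (wF e z₀) a| ≤ |sl wx a| + |sl wy a| + C := by
      have t1 : |p * sl (wd e z₀ (1, 0)) a| ≤ |sl wx a| := by
        rw [abs_mul, e1]; exact mul_le_mul_of_nonneg_right hp (abs_nonneg _)
      have t2 : |q * sl (wd e z₀ (0, 1)) a| ≤ |sl wy a| := by
        rw [abs_mul, e2]; exact mul_le_mul_of_nonneg_right hq (abs_nonneg _)
      have t3 := abs_add_le (p * sl (wd e z₀ (1, 0)) a) (q * sl (wd e z₀ (0, 1)) a)
      have t4 := abs_sub (sl (wF e z₀) a + (p * sl (wd e z₀ (1, 0)) a + q * sl (wd e z₀ (0, 1)) a))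
        (p * sl (wd e z₀ (1, 0)) a + q * sl (wd e z₀ (0, 1)) a)
      rw [add_sub_cancel_right] at t4
      linarith
    rcases le_total |sl wy a| |sl wx a| with h | h
    · left
      show |sl (wF e z₀) a| ≤ 2 * |sl wx a| + C
      linarith
    · right
      show |sl (wF e z₀) a| ≤ 2 * |sl wy a| + C
      linarith
  have hsub : {c : S → ℝ × ℝ | (∀ m, ‖c m‖ ≤ M) ∧ ∃ z : ℝ × ℝ, ‖z‖ ≤ 1 ∧ |z.1 - z₀.1| ≤ hx ∧
      |z.2 - z₀.2| ≤ hy ∧ ‖z - z₀‖ ≤ δ ∧ Gs one e c z = 0} ⊆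
      {c | (fun m => (c m).1) ∈ A ∧ (fun m => (c m).2) ∈ A} := by
    rintro c ⟨hcM, z, hz1, hz2, hz3, hz4, hz0⟩
    have ht := taylor he hN hcM hM hz1 hz₀
    rw [hz0, zero_sub] at ht
    have hC' : 2 * (N * (n ^ 2 * M)) * ‖z - z₀‖ ^ 2 ≤ C := by
      rw [hC]
      gcongr
    have ht2 : ‖Gs one e c z₀ + ((z - z₀).1 • Gx one e c z₀ + (z - z₀).2 • Gy one e c z₀)‖ ≤ C := by
      rw [← norm_neg]
      refine le_trans (le_of_eq ?_) (ht.trans hC')
      congr 1
      abel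
    have e3 : Gs one e c z₀ + ((z - z₀).1 • Gx one e c z₀ + (z - z₀).2 • Gy one e c z₀) =
        lin (wF e z₀) c + ((z - z₀).1 • lin (wd e z₀ (1, 0)) c +
          (z - z₀).2 • lin (wd e z₀ (0, 1)) c) := by
      rw [lin_wF, lin_wd, lin_wd]
      simp
    rw [e3] at ht2
    constructor
    · refine key _ (z - z₀).1 (z - z₀).2 hz2 hz3 ?_
      have := (norm_fst_le _).trans ht2
      simp only [Prod.fst_add, Prod.smul_fst, lin_fst, smul_eq_mul, Real.norm_eq_abs] at this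
      exact this
    · refine key _ (z - z₀).1 (z - z₀).2 hz2 hz3 ?_
      have := (norm_snd_le _).trans ht2
      simp only [Prod.snd_add, Prod.smul_snd, lin_snd, smul_eq_mul, Real.norm_eq_abs] at this
      exact this
  refine (measure_mono hsub).trans ?_
  have hXm : MeasurableSet {c : S → ℝ × ℝ | (fun m => (c m).1) ∈ A ∧ (fun m => (c m).2) ∈ A} := by
    have m1 : Measurable fun c : S → ℝ × ℝ => fun m => (c m).1 := by fun_prop
    have m2 : Measurable fun c : S → ℝ × ℝ => fun m => (c m).2 := by fun_prop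
    exact (m1 hAm).inter (m2 hAm)
  rw [← (mp_gb b).measure_preimage hXm.nullMeasurableSet]
  have e4 : (fun g : S → ℝ × ℝ => fun m => b m + g m) ⁻¹'
      {c : S → ℝ × ℝ | (fun m => (c m).1) ∈ A ∧ (fun m => (c m).2) ∈ A} =
      {c : S → ℝ × ℝ | (fun m => (c m).1) ∈ {a : S → ℝ | (fun m => (b m).1 + a m) ∈ A} ∧
        (fun m => (c m).2) ∈ {a : S → ℝ | (fun m => (b m).2 + a m) ∈ A}} := rfl
  rw [e4, split2]
  refine (mul_le_mul' (hAp _ (sq_fst_le b)) (hAp _ (sq_snd_le b))).trans ?_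
  rw [← ENNReal.ofReal_mul (by positivity)]
  exact ENNReal.ofReal_le_ofReal (le_of_eq (by ring))

end

end Pool.Agent.W960.KS
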