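import Pool.Agent.W960.KS.A2
import Pool.Agent.W960.HS.CB5

/-! Smoothed analysis with independent noise of equal variance: almost linear dependence on the
degree. -/

open Real Set MeasureTheory Topology Filter ProbabilityTheory
open scoped ENNReal

namespace Pool.Agent.W960.KS

noncomputable section

open Pool.Agent.W960.HR
open Pool.Agent.W960.HS (nb nb_nonneg sh nb_sh weighted sn_smul)
open Pool.Agent.H709R2 (NP NP_smul g2 measurable_NP)

variable {n : ℕ}

/-- the number of zeros in the mean -/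
lemma zeros_gb (hn : 1 ≤ n) (b : T n → ℝ × ℝ) : ∫⁻ c, NZ c ∂gb b ≤
    ENNReal.ofReal (min ((n:ℝ) ^ 2) (7776 * (1 + Real.log n) ^ 2 * (1 + nb b) ^ 2)) := by
  have hβ := nb_nonneg b
  have hW : (1:ℝ) ≤ 4 * (1 + √(sn b)) ^ 2 := by
    have : 0 ≤ √(sn b) := Real.sqrt_nonneg _
    nlinarith
  have h1 : ∫⁻ c, NZ c ∂gb b ≤ ENNReal.ofReal ((n:ℝ) ^ 2) := by
    have h := lintegral_NZ_le (full_T hn) (fun m : T n => g2.map fun v => b m + v) le_rfl hW
      (dens_gb b) (mom_gb b)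
    rw [ENNReal.ofReal_pow (Nat.cast_nonneg _), ENNReal.ofReal_natCast]
    exact h
  have h2 : ∫⁻ c, NZ c ∂gb b ≤
      ENNReal.ofReal (7776 * (1 + Real.log n) ^ 2 * (1 + nb b) ^ 2) := by
    obtain ⟨g, -, hg2, hg3⟩ := NZ_maj_b hn b
    exact (lintegral_mono hg2).trans hg3
  rcases le_total ((n:ℝ) ^ 2) (7776 * (1 + Real.log n) ^ 2 * (1 + nb b) ^ 2) with h | h
  · rw [min_eq_left h]; exact h1
  · rw [min_eq_right h]; exact h2

/-- the integral over the rotations in the mean -/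
lemma phi_gb (hn : 1 ≤ n) (b : T n → ℝ × ℝ) {X : ℝ} (hX : 1 ≤ X) (hb : 1 + nb b ≤ 2 * X) :
    ∫⁻ c, Phi c ∂gb b ≤ ENNReal.ofReal (26 * 10 ^ 12 * (1 + Real.log (n * X)) *
      (n * min ((n:ℝ) ^ 2) ((1 + Real.log n) ^ 2 * X ^ 2))) := by
  have hβ := nb_nonneg b
  have hn1 : (1:ℝ) ≤ n := by exact_mod_cast hn
  have hl : 0 ≤ Real.log n := Real.log_nonneg hn1
  set y : ℝ := 1 + Real.log n with hy
  have hy1 : 1 ≤ y := by linarith
  have hW : (1:ℝ) ≤ 4 * (1 + √(sn b)) ^ 2 := by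
    have : 0 ≤ √(sn b) := Real.sqrt_nonneg _
    nlinarith
  have h1 : ∫⁻ c, Phi c ∂gb b ≤ ENNReal.ofReal (220000000 * (1 + Real.log (n * 1 *
      (4 * (1 + √(sn b)) ^ 2)))) * (1 + n * ∫⁻ c, NZ c ∂gb b) :=
    lintegral_phi (full_T hn) (fun m : T n => g2.map fun v => b m + v) le_rfl hW
      (dens_gb b) (mom_gb b)
  set L : ℝ := Real.log (n * X) with hL
  have hnX : 1 ≤ (n:ℝ) * X := one_le_mul_of_one_le_of_one_le hn1 hX
  have hL0 : 0 ≤ L := Real.log_nonneg hnX
  have h2 : 1 + Real.log (n * 1 * (4 * (1 + √(sn b)) ^ 2)) ≤ 378 / 100 * (1 + L) := by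
    have h3 : (n:ℝ) * 1 * (4 * (1 + √(sn b)) ^ 2) ≤ 16 * (n * X) ^ 2 := by
      have h4 : (1 + √(sn b)) ^ 2 ≤ (2 * X) ^ 2 := by
        have h5 : 1 + √(sn b) ≤ 2 * X := hb
        have h6 : 0 ≤ √(sn b) := Real.sqrt_nonneg _
        exact pow_le_pow_left₀ (by linarith) h5 2
      have h5 : (n:ℝ) ≤ n ^ 2 := by nlinarith
      calc (n:ℝ) * 1 * (4 * (1 + √(sn b)) ^ 2) ≤ n * 1 * (4 * (2 * X) ^ 2) := by gcongr
        _ = 16 * (n * X ^ 2) := by ring
        _ ≤ 16 * (n ^ 2 * X ^ 2) := by gcongr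
        _ = _ := by ring
    have h4 := Real.log_le_log (by positivity) h3
    have e4 : Real.log (16 * (n * X) ^ 2) = Real.log 16 + 2 * Real.log (n * X) := by
      rw [Real.log_mul (by norm_num) (by positivity), Real.log_pow]
      push_cast
      ring
    rw [e4] at h4
    have h5 : Real.log 16 ≤ 278 / 100 := by
      have : (16:ℝ) = 2 ^ 4 := by norm_num
      rw [this, Real.log_pow]
      have := Real.log_two_lt_d9
      push_cast
      linarith
    linarith
  set m : ℝ := min ((n:ℝ) ^ 2) (y ^ 2 * X ^ 2) with hm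
  have hm1 : 1 ≤ m := by
    rw [hm, le_min_iff]
    exact ⟨one_le_pow₀ hn1, one_le_mul_of_one_le_of_one_le (one_le_pow₀ hy1) (one_le_pow₀ hX)⟩
  have h3 : min ((n:ℝ) ^ 2) (7776 * y ^ 2 * (1 + nb b) ^ 2) ≤ 31104 * m := by
    have h4 : (1 + nb b) ^ 2 ≤ (2 * X) ^ 2 := pow_le_pow_left₀ (by linarith) hb 2
    rcases le_total ((n:ℝ) ^ 2) (y ^ 2 * X ^ 2) with h | h
    · refine (min_le_left _ _).trans ?_
      rw [hm, min_eq_left h]
      have : 0 ≤ (n:ℝ) ^ 2 := sq_nonneg _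
      linarith
    · refine (min_le_right _ _).trans ?_
      rw [hm, min_eq_right h]
      have h5 := mul_le_mul_of_nonneg_left h4 (by positivity : 0 ≤ 7776 * y ^ 2)
      refine h5.trans (le_of_eq ?_)
      ring
  have h4 : (1:ℝ≥0∞) + n * ∫⁻ c, NZ c ∂gb b ≤ ENNReal.ofReal (31105 * (n * m)) := by
    have e : (n:ℝ≥0∞) = ENNReal.ofReal n := (ENNReal.ofReal_natCast n).symm
    calc (1:ℝ≥0∞) + n * ∫⁻ c, NZ c ∂gb b
        ≤ ENNReal.ofReal 1 + ENNReal.ofReal n * ENNReal.ofReal (31104 * m) := by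
          rw [e, ENNReal.ofReal_one]
          gcongr
          exact (zeros_gb hn b).trans (ENNReal.ofReal_le_ofReal h3)
      _ = ENNReal.ofReal (1 + n * (31104 * m)) := by
          rw [← ENNReal.ofReal_mul (by positivity), ← ENNReal.ofReal_add (by norm_num) (by positivity)]
      _ ≤ _ := by
          apply ENNReal.ofReal_le_ofReal
          have : (1:ℝ) ≤ n * m := one_le_mul_of_one_le_of_one_le hn1 hm1
          linarith
  refine (h1.trans (mul_le_mul' (ENNReal.ofReal_le_ofReal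
    (mul_le_mul_of_nonneg_left h2 (by norm_num))) h4)).trans ?_
  rw [← ENNReal.ofReal_mul (by positivity)]
  apply ENNReal.ofReal_le_ofReal
  have : 0 ≤ (1 + L) * (n * m) := by positivity
  nlinarith

/-- the mean for any centre -/
theorem centred (hn : 1 ≤ n) (b : T n → ℝ × ℝ) :
    ∫⁻ c, NP c ∂gb b ≤ ENNReal.ofReal (5 * 10 ^ 14 * n * (1 + nb b) *
      (1 + Real.log (n * (1 + nb b))) *
      min ((n:ℝ) ^ 2) ((1 + Real.log n) ^ 2 * (1 + nb b) ^ 2)) := by
  have hβ := nb_nonneg b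
  have hn1 : (1:ℝ) ≤ n := by exact_mod_cast hn
  set X : ℝ := 1 + nb b with hX
  have hX1 : 1 ≤ X := by linarith
  refine (to_rotations b).trans ?_
  have h2 := weighted b (P := Phi) measurable_Phi
  rw [← hX] at h2
  have h3 : ∀ i : Fin 4, ∫⁻ c, Phi c ∂gb (b + sh b i) ≤
      ENNReal.ofReal (26 * 10 ^ 12 * (1 + Real.log (n * X)) *
      (n * min ((n:ℝ) ^ 2) ((1 + Real.log n) ^ 2 * X ^ 2))) := by
    intro i
    have h4 := nb_sh b i
    exact phi_gb hn _ hX1 (by rw [← hX] at h4; linarith)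
  have hL0 : 0 ≤ Real.log (n * X) := Real.log_nonneg (one_le_mul_of_one_le_of_one_le hn1 hX1)
  have hl : 0 ≤ Real.log n := Real.log_nonneg hn1
  set m : ℝ := min ((n:ℝ) ^ 2) ((1 + Real.log n) ^ 2 * X ^ 2) with hm
  have hm0 : 0 ≤ m := by
    rw [hm]
    exact le_min (by positivity) (by positivity)
  calc _ ≤ 4 * (ENNReal.ofReal X *
        ∑ i : Fin 4, ENNReal.ofReal (26 * 10 ^ 12 * (1 + Real.log (n * X)) * (n * m))) := by
        refine mul_le_mul_right (h2.trans (mul_le_mul_right (Finset.sum_le_sum fun i _ => h3 i) _)) _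
    _ = ENNReal.ofReal 16 * (ENNReal.ofReal X *
          ENNReal.ofReal (26 * 10 ^ 12 * (1 + Real.log (n * X)) * (n * m))) := by
        rw [Finset.sum_const, Finset.card_univ, Fintype.card_fin, nsmul_eq_mul]
        have e16 : ENNReal.ofReal 16 = 4 * 4 := by norm_num
        rw [e16]
        push_cast
        ring
    _ = ENNReal.ofReal (16 * (X * (26 * 10 ^ 12 * (1 + Real.log (n * X)) * (n * m)))) := by
        rw [← ENNReal.ofReal_mul (by linarith), ← ENNReal.ofReal_mul (by norm_num)]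
    _ ≤ _ := by
        apply ENNReal.ofReal_le_ofReal
        have : 0 ≤ X * ((1 + Real.log (n * X)) * (n * m)) := by positivity
        nlinarith

/-- **Smoothed analysis with independent noise of equal variance.** -/
theorem kac_smoothed (hn : 1 ≤ n) (c₀ : T n → ℝ × ℝ) {σ : ℝ} (hσ : 0 < σ) :
    ∫⁻ g, NP (fun m => c₀ m + σ • g m) ∂GP (T n) ≤
      ENNReal.ofReal (5 * 10 ^ 14 * n * (1 + √(sn c₀) / σ) *
        (1 + Real.log (n * (1 + √(sn c₀) / σ))) *
        min ((n:ℝ) ^ 2) ((1 + Real.log n) ^ 2 * (1 + √(sn c₀) / σ) ^ 2)) := by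
  set b : T n → ℝ × ℝ := σ⁻¹ • c₀ with hb
  have hsn : nb b = √(sn c₀) / σ := by
    unfold nb
    rw [hb, sn_smul, inv_pow, inv_mul_eq_div, Real.sqrt_div' _ (by positivity), Real.sqrt_sq hσ.le]
  have h1 : ∀ g : T n → ℝ × ℝ, NP (fun m => c₀ m + σ • g m) = NP (fun m => b m + g m) := by
    intro g
    have h2 : (fun m => c₀ m + σ • g m) = σ • fun m => b m + g m := by
      funext m
      rw [Pi.smul_apply, smul_add, hb, Pi.smul_apply, smul_inv_smul₀ hσ.ne']
    rw [h2, NP_smul hσ]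
  simp only [h1]
  rw [← lintegral_gb b measurable_NP, ← hsn]
  exact centred hn b

end

end Pool.Agent.W960.KS
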